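import Mathlib

/-!
# A monoid `𝒮(M)` which is right coherent and not left coherent

`M` is an infinite right zero semigroup with an identity adjoined. The monoid `𝒮(M)` is right
coherent, but it is not left coherent; so it is non-coherent and it is contained in a right coherent
monoid, namely in itself.
-/

set_option autoImplicit false

namespace Pool.Agent.Results.MP_811a2c_al.RightNotLeft

universe u v

/-! ### Acts and coherence -/

/-- A right `S`-act. -/
class RightAct (S : Type u) [Monoid S] (A : Type v) where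
  /-- the action -/
  ac : A → S → A
  ac_one : ∀ a, ac a 1 = a
  ac_mul : ∀ a s t, ac (ac a s) t = ac a (s * t)

/-- The action of `s` on `a`. -/
abbrev act {S : Type u} [Monoid S] {A : Type v} [RightAct S A] (a : A) (s : S) : A :=
  RightAct.ac a s

/-- The free right `S`-act of rank `n`. -/
instance freeAct (S : Type u) [Monoid S] (n : ℕ) : RightAct S (Fin n × S) where
  ac p s := (p.1, p.2 * s)
  ac_one p := by simp
  ac_mul p s t := by simp [mul_assoc]

/-- The act congruence generated by a set `P` of pairs. -/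
inductive Gen (S : Type u) [Monoid S] {A : Type v} [RightAct S A] (P : Set (A × A)) : A → A → Prop
  | of (a b : A) : (a, b) ∈ P → Gen S P a b
  | refl (a : A) : Gen S P a a
  | symm (a b : A) : Gen S P a b → Gen S P b a
  | trans (a b c : A) : Gen S P a b → Gen S P b c → Gen S P a c
  | mul (a b : A) (s : S) : Gen S P a b → Gen S P (act a s) (act b s)

/-- The act `A` is finitely presented: it is the image of a free act of finite rank `n` under a
morphism of acts whose kernel is generated by a finite set of pairs. -/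
def FinPres (S : Type u) [Monoid S] (A : Type v) [RightAct S A] : Prop :=
  ∃ (n : ℕ) (φ : Fin n × S → A) (P : Set ((Fin n × S) × (Fin n × S))),
    Function.Surjective φ ∧ (∀ p (s : S), φ (act p s) = act (φ p) s) ∧ P.Finite ∧
      ∀ p q, φ p = φ q ↔ Gen S P p q

/-- The subact generated by `b 0, …, b (k - 1)`. -/
def Sub (S : Type u) [Monoid S] {A : Type v} [RightAct S A] {k : ℕ} (b : Fin k → A) : Type v :=
  {x : A // ∃ i, ∃ s : S, x = act (b i) s}

instance subAct (S : Type u) [Monoid S] {A : Type v} [RightAct S A] {k : ℕ} (b : Fin k → A) :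
    RightAct S (Sub S b) where
  ac x s := ⟨act x.1 s, by
    obtain ⟨i, t, h⟩ := x.2
    exact ⟨i, t * s, by rw [h]; exact RightAct.ac_mul _ _ _⟩⟩
  ac_one x := Subtype.ext (RightAct.ac_one _)
  ac_mul x s t := Subtype.ext (RightAct.ac_mul _ _ _)

/-- The monoid `S` is right coherent: every finitely generated subact of every finitely presented
right `S`-act is finitely presented. -/
def RightCoherent (S : Type u) [Monoid S] : Prop :=
  ∀ (A : Type u) [RightAct S A], FinPres S A →
    ∀ (k : ℕ) (b : Fin k → A), FinPres S (Sub S b)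

/-- The monoid `S` is left coherent: the opposite monoid is right coherent. -/
def LeftCoherent (S : Type u) [Monoid S] : Prop := RightCoherent Sᵐᵒᵖ

/-- The monoid `S` is coherent. -/
def Coherent (S : Type u) [Monoid S] : Prop := LeftCoherent S ∧ RightCoherent S

/-! ### The special semidirect product -/

/-- The set underlying `𝒮(M)`: the pairs `(X, x)` of a subset `X` of `M` and an element `x`. -/
@[ext] structure SM (M : Type u) where
  /-- the subset -/
  X : Set M
  /-- the element -/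
  x : M

/-- The product `(X, x)(Y, y) = (X ∪ xY, xy)`. -/
instance (M : Type u) [Monoid M] : Monoid (SM M) where
  mul p q := ⟨p.X ∪ (fun m => p.x * m) '' q.X, p.x * q.x⟩
  one := ⟨∅, 1⟩
  mul_assoc p q r := by
    apply SM.ext
    · change (p.X ∪ _ '' q.X) ∪ (fun m => p.x * q.x * m) '' r.X =
        p.X ∪ (fun m => p.x * m) '' (q.X ∪ (fun m => q.x * m) '' r.X)
      rw [Set.image_union, Set.union_assoc, Set.image_image]
      simp only [mul_assoc]
    · exact mul_assoc _ _ _
  one_mul p := by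
    apply SM.ext
    · change ∅ ∪ (fun m => 1 * m) '' p.X = p.X
      simp
    · exact one_mul _
  mul_one p := by
    apply SM.ext
    · change p.X ∪ (fun m => p.x * m) '' ∅ = p.X
      simp
    · exact mul_one _

section basic
variable {M : Type u} [Monoid M]
theorem mul_X (p q : SM M) : (p * q).X = p.X ∪ (fun m => p.x * m) '' q.X := rfl
theorem mul_x (p q : SM M) : (p * q).x = p.x * q.x := rfl
theorem one_X : (1 : SM M).X = ∅ := rfl
theorem one_x : (1 : SM M).x = 1 := rfl
end basic

/-! ### The monoid `M` -/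

/-- An infinite right zero semigroup with an identity `none` adjoined. -/
def M : Type := Option ℕ

instance : Monoid M where
  mul a b := match b with
    | none => a
    | some y => some y
  one := none
  mul_assoc a b c := by
    rcases c with _ | c <;> rfl
  one_mul a := by rcases a with _ | a <;> rfl
  mul_one a := rfl

/-- An element of `M` different from `1`. -/
def pt : M := (some 0 : Option ℕ)

theorem pt_ne_one : pt ≠ 1 := fun h => Option.some_ne_none 0 h

theorem mul_right (a : M) {b : M} (h : b ≠ 1) : a * b = b := by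
  rcases b with _ | b
  · exact absurd rfl h
  · rfl

/-! ### General facts -/

section general
variable {S : Type u} [Monoid S]

theorem Gen.mono_hom {A B : Type*} [RightAct S A] [RightAct S B] (θ : A → B)
    (hθ : ∀ a (s : S), θ (act a s) = act (θ a) s) {P : Set (A × A)} {Q : Set (B × B)}
    (h : ∀ a b, (a, b) ∈ P → Gen S Q (θ a) (θ b)) {a b : A} (hab : Gen S P a b) :
    Gen S Q (θ a) (θ b) := by
  induction hab with
  | of a b hab => exact h a b hab
  | refl a => exact Gen.refl _
  | symm a b _ ih => exact Gen.symm _ _ ih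
  | trans a b c _ _ ih1 ih2 => exact Gen.trans _ _ _ ih1 ih2
  | mul a b s _ ih => rw [hθ, hθ]; exact Gen.mul _ _ _ ih

/-- `S` as a right act over itself. -/
instance selfAct : RightAct S S where
  ac a s := a * s
  ac_one := mul_one
  ac_mul := mul_assoc

/-- If `S` is right coherent then the right annihilator congruence of every `α` is generated by a
finite set of pairs. -/
theorem annihilator_fg (hS : RightCoherent S) (α : S) :
    ∃ P : Set (S × S), P.Finite ∧ ∀ s t : S, α * s = α * t ↔ Gen S P s t := by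
  classical
  have h1 : FinPres S S := by
    refine ⟨1, fun p => p.2, ∅, fun s => ⟨(0, s), rfl⟩, fun p s => rfl, Set.finite_empty, ?_⟩
    rintro ⟨i, s⟩ ⟨j, t⟩
    obtain rfl : i = 0 := Subsingleton.elim _ _
    obtain rfl : j = 0 := Subsingleton.elim _ _
    constructor
    · rintro (h : s = t)
      rw [h]; exact Gen.refl _
    · intro h
      have key : ∀ p q : Fin 1 × S, Gen S (∅ : Set ((Fin 1 × S) × (Fin 1 × S))) p q → p = q := by
        intro p q h
        induction h with
        | of a b hab => exact absurd hab (Set.notMem_empty _)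
        | refl a => rfl
        | symm a b _ ih => exact ih.symm
        | trans a b c _ _ ih1 ih2 => exact ih1.trans ih2
        | mul a b s _ ih => rw [ih]
      exact congrArg Prod.snd (key _ _ h)
  obtain ⟨n, φ, P, hsurj, hact, hfin, hker⟩ := hS S h1 1 (fun _ => α)
  -- the generators of the presentation
  have hm : ∀ i : Fin n, ∃ m : S, (φ (i, 1)).1 = α * m := by
    intro i
    obtain ⟨j, t, h⟩ := (φ (i, 1)).2
    exact ⟨t, h⟩
  choose m hm using hm
  have hφ : ∀ i (s : S), (φ (i, s)).1 = α * (m i * s) := by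
    intro i s
    have h2 := hact (i, 1) s
    have h3 : act ((i, 1) : Fin n × S) s = (i, s) := by
      change (i, 1 * s) = (i, s)
      rw [one_mul]
    rw [h3] at h2
    rw [h2]
    change (φ (i, 1)).1 * s = _
    rw [hm, mul_assoc]
  obtain ⟨⟨i0, x0⟩, hx0⟩ := hsurj ⟨α, 0, 1, (mul_one α).symm⟩
  have hx0' : α = α * (m i0 * x0) := by
    rw [← hφ, hx0]
  let θ : Fin n × S → S := fun p => m p.1 * p.2
  have hθ : ∀ a (s : S), θ (act a s) = act (θ a) s := fun a s => (mul_assoc _ _ _).symm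
  have e : ∀ s, α * (m i0 * (x0 * s)) = α * s := by
    intro s
    rw [← mul_assoc (m i0), ← mul_assoc α, ← hx0']
  obtain ⟨Q, hQ⟩ : ∃ Q : Set (S × S), Q =
    (fun pq : (Fin n × S) × (Fin n × S) => (θ pq.1, θ pq.2)) '' P ∪ {(1, m i0 * x0)} := ⟨_, rfl⟩
  refine ⟨Q, hQ ▸ (hfin.image _).union (Set.finite_singleton _), ?_⟩
  intro s t
  constructor
  · intro hst
    have h2 : φ (i0, x0 * s) = φ (i0, x0 * t) := by
      apply Subtype.ext
      rw [hφ, hφ, e, e, hst]
    have h3 := (hker _ _).1 h2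
    have h4 : Gen S Q (θ (i0, x0 * s)) (θ (i0, x0 * t)) := by
      refine Gen.mono_hom θ hθ ?_ h3
      intro a b hab
      exact Gen.of _ _ (hQ ▸ Or.inl ⟨(a, b), hab, rfl⟩)
    have h5 : ∀ s : S, Gen S Q s (θ (i0, x0 * s)) := by
      intro s
      have h7 : ((1 : S), m i0 * x0) ∈ Q := hQ ▸ Or.inr rfl
      have h6 := Gen.mul _ _ s (Gen.of (S := S) _ _ h7)
      change Gen S _ (1 * s) (m i0 * x0 * s) at h6
      rw [one_mul, mul_assoc] at h6
      exact h6
    exact Gen.trans _ _ _ (h5 s) (Gen.trans _ _ _ h4 (Gen.symm _ _ (h5 t)))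
  · intro h
    induction h with
    | of a b hab =>
      rw [hQ] at hab
      rcases hab with ⟨⟨p, q⟩, hpq, he⟩ | he
      · have h7 := (hker _ _).2 (Gen.of _ _ hpq)
        have h8 := congrArg Subtype.val h7
        rw [hφ, hφ] at h8
        obtain ⟨rfl, rfl⟩ := Prod.mk.inj he
        exact h8
      · obtain ⟨rfl, rfl⟩ := Prod.mk.inj he
        rw [mul_one]; exact hx0'
    | refl a => rfl
    | symm a b _ ih => exact ih.symm
    | trans a b c _ _ ih1 ih2 => exact ih1.trans ih2
    | mul a b s _ ih =>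
      change α * (a * s) = α * (b * s)
      rw [← mul_assoc, ← mul_assoc, ih]

end general

/-! ### `𝒮(M)` is not left coherent -/

open MulOpposite in
theorem not_left : ¬ LeftCoherent (SM M) := by
  intro h
  obtain ⟨P, hP, hker⟩ := annihilator_fg h (op (⟨{(1 : M)}, pt⟩ : SM M))
  -- the second coordinates
  have hN : ((fun pq : (SM M)ᵐᵒᵖ × (SM M)ᵐᵒᵖ => (unop pq.1).x) '' P ∪
      (fun pq : (SM M)ᵐᵒᵖ × (SM M)ᵐᵒᵖ => (unop pq.2).x) '' P).Finite :=
    (hP.image _).union (hP.image _)
  haveI : Infinite M := inferInstanceAs (Infinite (Option ℕ))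
  obtain ⟨u, hu⟩ := (hN.union (Set.finite_singleton (1 : M))).exists_notMem
  obtain ⟨v, hv⟩ := ((hN.union (Set.finite_singleton (1 : M))).union
    (Set.finite_singleton u)).exists_notMem
  simp only [Set.mem_union, not_or, Set.mem_singleton_iff] at hu hv
  obtain ⟨⟨hu1, hu2⟩, hu3⟩ := hu
  obtain ⟨⟨⟨hv1, hv2⟩, hv3⟩, hvu⟩ := hv
  -- the meaning of the annihilator congruence
  have hmul : ∀ s : SM M, (s * (⟨{(1 : M)}, pt⟩ : SM M)).X = s.X ∪ {s.x} := by
    intro s
    rw [mul_X, Set.image_singleton, mul_one]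
  have hmulx : ∀ s : SM M, (s * (⟨{(1 : M)}, pt⟩ : SM M)).x =
      pt := fun s => rfl
  have hl : ∀ s t : (SM M)ᵐᵒᵖ, Gen (SM M)ᵐᵒᵖ P s t ↔
      (unop s).X ∪ {(unop s).x} = (unop t).X ∪ {(unop t).x} := by
    intro s t
    rw [← hker]
    rw [← unop_inj, unop_mul, unop_mul, unop_op]
    constructor
    · intro h1
      have := congrArg SM.X h1
      rwa [hmul, hmul] at this
    · intro h1
      apply SM.ext
      · rw [hmul, hmul]; exact h1
      · rfl
  -- the invariant
  let K : Set (SM M) := {z | z.x = u ∧ z.X ∪ {z.x} = {u, v}}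
  have step : ∀ (c d : (SM M)ᵐᵒᵖ), (unop d).x ≠ u → (unop c).x ≠ u → (unop d).x ≠ v →
      Gen (SM M)ᵐᵒᵖ P c d → ∀ s : (SM M)ᵐᵒᵖ, unop (c * s) ∈ K → unop (d * s) ∈ K := by
    intro c d hdu hcu hdv hcd s hK
    obtain ⟨hK1, hK2⟩ := hK
    rw [unop_mul] at hK1 hK2
    rw [mul_x] at hK1
    have hc1 : (unop c).x = 1 := by
      by_contra hc
      rw [mul_right _ hc] at hK1
      exact hcu hK1
    rw [hc1, mul_one] at hK1
    have h2 := (hl _ _).1 (Gen.mul _ _ s hcd)
    have h2' : (unop s * unop c).X ∪ {(unop s * unop c).x} =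
      (unop s * unop d).X ∪ {(unop s * unop d).x} := h2
    rw [hK2] at h2'
    have hd1 : (unop d).x = 1 := by
      by_contra hd
      have h3 : (unop s * unop d).x ∈ ({u, v} : Set M) := by
        rw [h2']; exact Or.inr rfl
      rw [mul_x, mul_right _ hd] at h3
      rcases h3 with h3 | h3
      · exact hdu h3
      · exact hdv h3
    refine ⟨?_, ?_⟩
    · rw [unop_mul, mul_x, hd1, mul_one, hK1]
    · rw [unop_mul]; exact h2'.symm
  have key : ∀ c d : (SM M)ᵐᵒᵖ, Gen (SM M)ᵐᵒᵖ P c d → ∀ s : (SM M)ᵐᵒᵖ,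
      (unop (c * s) ∈ K ↔ unop (d * s) ∈ K) := by
    intro c d hcd
    induction hcd with
    | of a b hab =>
      intro s
      have ha : (unop a).x ≠ u := fun he => hu1 ⟨(a, b), hab, he⟩
      have hb : (unop b).x ≠ u := fun he => hu2 ⟨(a, b), hab, he⟩
      have ha' : (unop a).x ≠ v := fun he => hv1 ⟨(a, b), hab, he⟩
      have hb' : (unop b).x ≠ v := fun he => hv2 ⟨(a, b), hab, he⟩
      exact ⟨step a b hb ha hb' (Gen.of _ _ hab) s,
        step b a ha hb ha' (Gen.symm _ _ (Gen.of _ _ hab)) s⟩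
    | refl a => intro s; rfl
    | symm a b _ ih => intro s; exact (ih s).symm
    | trans a b c _ _ ih1 ih2 => intro s; exact (ih1 s).trans (ih2 s)
    | mul a b t _ ih =>
      intro s
      have := ih (t * s)
      rw [← mul_assoc, ← mul_assoc] at this
      exact this
  have hrel : Gen (SM M)ᵐᵒᵖ P (op ⟨{v}, u⟩) (op ⟨{u}, v⟩) := by
    rw [hl]
    change ({v} : Set M) ∪ {u} = {u} ∪ {v}
    exact Set.union_comm _ _
  have h1 := (key _ _ hrel 1).1 (by
    rw [mul_one]
    exact ⟨rfl, Set.union_comm _ _⟩)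
  rw [mul_one] at h1
  exact hvu h1.1

/-! ### `𝒮(M)` is right coherent -/

section right

variable {C : Type} (c : M → C) (F : Set M) (f : M)

/-- A union of colour classes. -/
def Sat (Y : Set M) : Prop := ∀ m m', c m = c m' → m ∈ Y → m' ∈ Y

/-- The largest union of colour classes contained in a set. -/
def core (Y : Set M) : Set M := {m | ∀ m', c m' = c m → m' ∈ Y}

theorem core_subset (Y : Set M) : core c Y ⊆ Y := fun _ hm => hm _ rfl

theorem sat_core (Y : Set M) : Sat c (core c Y) := by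
  intro m m' h hm m'' h'
  exact hm m'' (h'.trans h.symm)

theorem finite_sat [Finite C] : {Y : Set M | Sat c Y}.Finite := by
  apply Set.Finite.of_finite_image (f := fun Y => c '' Y) (Set.toFinite _)
  intro Y hY Z hZ h
  have key : ∀ Y Z : Set M, Sat c Z → c '' Y = c '' Z → Y ⊆ Z := by
    intro Y Z hZ h m hm
    have : c m ∈ c '' Z := h ▸ ⟨m, hm, rfl⟩
    obtain ⟨m', hm', he⟩ := this
    exact hZ _ _ he hm'
  exact Set.Subset.antisymm (key Y Z hZ h) (key Z Y hY h.symm)

/-- The finite submonoid. -/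
def S0 : Set (SM M) := {p | Sat c p.X ∧ p.x ∈ F}

theorem finite_S0 [Finite C] (hF : F.Finite) : (S0 c F).Finite := by
  apply Set.Finite.subset (((finite_sat c).prod hF).image fun p => (⟨p.1, p.2⟩ : SM M))
  intro p hp
  exact ⟨(p.X, p.x), ⟨hp.1, hp.2⟩, rfl⟩

theorem image_mul (x : M) {r : Set M} (hr : (1 : M) ∉ r) : (fun m => x * m) '' r = r := by
  ext m
  constructor
  · rintro ⟨m', hm', rfl⟩
    have : m' ≠ 1 := fun h => hr (h ▸ hm')
    change x * m' ∈ r
    rw [mul_right _ this]
    exact hm'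
  · intro hm
    have : m ≠ 1 := fun h => hr (h ▸ hm)
    exact ⟨m, hm, mul_right _ this⟩

variable (hF : ∀ x ∈ F, ∀ m, c m = c x → m = x) (h1 : (1 : M) ∈ F) (hf : f ∈ F) (hf1 : f ≠ 1)

include hF h1 in
theorem sat_image {Y : Set M} (hY : Sat c Y) {x : M} (hx : x ∈ F) :
    Sat c ((fun m => x * m) '' Y) := by
  rintro _ m' h ⟨y, hy, rfl⟩
  change c (x * y) = c m' at h
  by_cases hy1 : y = 1
  · subst hy1
    rw [mul_one] at h
    have := hF x hx m' h.symm
    subst this
    exact ⟨1, hy, mul_one _⟩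
  · rw [mul_right _ hy1] at h
    have hm' : m' ≠ 1 := by
      rintro rfl
      exact hy1 (hF 1 h1 y h)
    exact ⟨m', hY _ _ h hy, mul_right _ hm'⟩

theorem sat_union {Y Z : Set M} (hY : Sat c Y) (hZ : Sat c Z) : Sat c (Y ∪ Z) := by
  rintro m m' h (hm | hm)
  · exact Or.inl (hY _ _ h hm)
  · exact Or.inr (hZ _ _ h hm)

theorem sat_empty : Sat c ∅ := fun _ _ _ h => h

include h1 in
theorem one_S0 : (1 : SM M) ∈ S0 c F := ⟨sat_empty c, h1⟩

include hF h1 in
theorem mul_S0 {p q : SM M} (hp : p ∈ S0 c F) (hq : q ∈ S0 c F) : p * q ∈ S0 c F := by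
  refine ⟨sat_union c hp.1 (sat_image c F hF h1 hq.1 hp.2), ?_⟩
  rw [mul_x]
  by_cases h : q.x = 1
  · rw [h, mul_one]; exact hp.2
  · rw [mul_right _ h]; exact hq.2

/-- Elements of `𝒮(M)` on which the colouring gives no information. -/
def Adm (w : SM M) : Prop :=
  (1 : M) ∉ w.X ∧ (∀ m, ∃ m', c m' = c m ∧ m' ∉ w.X) ∧ (w.x = 1 ∨ w.x ∉ F)

include hF h1 in
theorem decomp (t : SM M) : ∃ s ∈ S0 c F, ∃ w, Adm c F w ∧ t = s * w := by
  classical
  have hr : (1 : M) ∉ t.X \ core c t.X := by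
    rintro ⟨h, h'⟩
    apply h'
    intro m' hm'
    rw [hF 1 h1 m' hm']
    exact h
  have hr2 : ∀ m, ∃ m', c m' = c m ∧ m' ∉ t.X \ core c t.X := by
    intro m
    by_contra h
    push Not at h
    have hm := h m rfl
    apply hm.2
    intro m' hm'
    exact (h m' hm').1
  have hun : core c t.X ∪ (t.X \ core c t.X) = t.X :=
    Set.union_sdiff_cancel (core_subset c t.X)
  by_cases hx : t.x ∈ F
  · refine ⟨⟨core c t.X, t.x⟩, ⟨sat_core c _, hx⟩, ⟨t.X \ core c t.X, 1⟩,
      ⟨hr, hr2, Or.inl rfl⟩, ?_⟩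
    apply SM.ext
    · rw [mul_X]
      change t.X = core c t.X ∪ (fun m => t.x * m) '' (t.X \ core c t.X)
      rw [image_mul _ hr, hun]
    · exact (mul_one _).symm
  · refine ⟨⟨core c t.X, 1⟩, ⟨sat_core c _, h1⟩, ⟨t.X \ core c t.X, t.x⟩,
      ⟨hr, hr2, Or.inr hx⟩, ?_⟩
    apply SM.ext
    · rw [mul_X]
      change t.X = core c t.X ∪ (fun m => 1 * m) '' (t.X \ core c t.X)
      rw [image_mul _ hr, hun]
    · exact (one_mul _).symm

/-- The equivalence relation generated by `P` under the action of a set `T` of scalars. -/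
inductive G0 {S : Type} [Monoid S] (T : Set S) {A : Type} [RightAct S A] (P : Set (A × A)) :
    A → A → Prop
  | of (a b : A) : (a, b) ∈ P → G0 T P a b
  | refl (a : A) : G0 T P a a
  | symm (a b : A) : G0 T P a b → G0 T P b a
  | trans (a b c : A) : G0 T P a b → G0 T P b c → G0 T P a c
  | mul (a b : A) (s : S) : s ∈ T → G0 T P a b → G0 T P (act a s) (act b s)

theorem G0.gen {S : Type} [Monoid S] {T : Set S} {A : Type} [RightAct S A] {P : Set (A × A)}
    {a b : A} (h : G0 T P a b) : Gen S P a b := by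
  induction h with
  | of a b hab => exact Gen.of _ _ hab
  | refl a => exact Gen.refl _
  | symm a b _ ih => exact Gen.symm _ _ ih
  | trans a b c _ _ ih1 ih2 => exact Gen.trans _ _ _ ih1 ih2
  | mul a b s _ _ ih => exact Gen.mul _ _ _ ih

variable {n : ℕ} (P : Set ((Fin n × SM M) × (Fin n × SM M)))

/-- The largest union of colour classes fixing `p` modulo `G0`. -/
def XX (p : Fin n × SM M) : Set M :=
  ⋃₀ {X | Sat c X ∧ (1 : M) ∉ X ∧ G0 (S0 c F) P (act p (⟨X, 1⟩ : SM M)) p}

theorem mul_e {p : SM M} {X : Set M} (hX : (1 : M) ∉ X) (y : M) :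
    p * (⟨X, y⟩ : SM M) = ⟨p.X ∪ X, p.x * y⟩ := by
  apply SM.ext
  · rw [mul_X]
    change p.X ∪ (fun m => p.x * m) '' X = p.X ∪ X
    rw [image_mul _ hX]
  · rfl

theorem act_def {n : ℕ} (p : Fin n × SM M) (s : SM M) : act p s = (p.1, p.2 * s) := rfl

theorem act_act {n : ℕ} (p : Fin n × SM M) (s t : SM M) : act (act p s) t = act p (s * t) := by
  rw [act_def, act_def, act_def, mul_assoc]

include h1 in
theorem XX_mem [Finite C] (p : Fin n × SM M) :
    Sat c (XX c F P p) ∧ (1 : M) ∉ XX c F P p ∧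
      G0 (S0 c F) P (act p (⟨XX c F P p, 1⟩ : SM M)) p := by
  have key : sSup {X | Sat c X ∧ (1 : M) ∉ X ∧ G0 (S0 c F) P (act p (⟨X, 1⟩ : SM M)) p} ∈
      {X | Sat c X ∧ (1 : M) ∉ X ∧ G0 (S0 c F) P (act p (⟨X, 1⟩ : SM M)) p} := by
    apply SupClosed.sSup_mem
    · rintro X ⟨hX1, hX2, hX3⟩ Y ⟨hY1, hY2, hY3⟩
      refine ⟨sat_union c hX1 hY1, fun h => h.elim hX2 hY2, ?_⟩
      have h4 : (⟨X ⊔ Y, 1⟩ : SM M) = ⟨X, 1⟩ * ⟨Y, 1⟩ := by
        rw [mul_e hY2]; rfl
      rw [h4, ← act_act]
      exact G0.trans _ _ _ (G0.mul _ _ _ ⟨hY1, h1⟩ hX3) hY3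
    · exact (finite_sat c).subset fun X hX => hX.1
    · refine ⟨sat_empty c, fun h => h, ?_⟩
      have : act p (⟨⊥, 1⟩ : SM M) = p := by
        change act p (1 : SM M) = p
        exact RightAct.ac_one p
      rw [this]
      exact G0.refl _
    · exact subset_rfl
  exact key

include h1 in
theorem XX_congr {p q : Fin n × SM M} (h : G0 (S0 c F) P p q) : XX c F P p = XX c F P q := by
  have key : ∀ p q : Fin n × SM M, G0 (S0 c F) P p q → XX c F P p ⊆ XX c F P q := by
    intro p q h
    apply Set.sUnion_subset_sUnion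
    rintro X ⟨hX1, hX2, hX3⟩
    refine ⟨hX1, hX2, ?_⟩
    exact G0.trans _ _ _ (G0.mul _ _ _ ⟨hX1, h1⟩ (G0.symm _ _ h)) (G0.trans _ _ _ hX3 h)
  exact Set.Subset.antisymm (key p q h) (key q p (G0.symm _ _ h))

theorem subset_XX {p : Fin n × SM M} {X : Set M} (hX : Sat c X) (h1X : (1 : M) ∉ X)
    (hXp : X ⊆ p.2.X) : X ⊆ XX c F P p := by
  apply Set.subset_sUnion_of_mem
  refine ⟨hX, h1X, ?_⟩
  have : act p (⟨X, 1⟩ : SM M) = p := by
    rw [act_def, mul_e h1X, mul_one, Set.union_eq_self_of_subset_right hXp]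
  rw [this]
  exact G0.refl _

open Classical in
/-- The pointer of the base of an element. -/
noncomputable def hat (z : M) : M := if z ∈ F then z else f

open Classical in
/-- The tag of an element. -/
noncomputable def tag (z : M) : Option M := if z ∈ F then none else some z

/-- The base of an element of the free act. -/
noncomputable def base (p : Fin n × SM M) : Fin n × SM M := (p.1, ⟨core c p.2.X, hat F f p.2.x⟩)

/-- The remainder. -/
noncomputable def rem (p : Fin n × SM M) : Set M :=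
  (p.2.X \ core c p.2.X) \ XX c F P (base c F f p)

/-- The invariant relation. -/
def Psi (p q : Fin n × SM M) : Prop :=
  tag F p.2.x = tag F q.2.x ∧ G0 (S0 c F) P (base c F f p) (base c F f q) ∧
    rem c F f P p = rem c F f P q

open Classical in
/-- The small part of `w`. -/
noncomputable def eps (w : SM M) : SM M := ⟨∅, if w.x ∈ F then 1 else f⟩

include hF h1 hf hf1 in
theorem lemmaA {q : Fin n × SM M} (hq : q.2 ∈ S0 c F) {w : SM M} (hw : Adm c F w) :
    base c F f (act q w) = act q (eps F f w) ∧ tag F (act q w).2.x = tag F w.x ∧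
      rem c F f P (act q w) = w.X \ XX c F P (act q (eps F f w)) := by
  classical
  obtain ⟨hw1, hw2, hw3⟩ := hw
  have hX : (q.2 * w).X = q.2.X ∪ w.X := by
    rw [mul_X, image_mul _ hw1]
  have hcore : core c (q.2 * w).X = q.2.X := by
    rw [hX]
    ext m
    constructor
    · intro hm
      by_contra hmq
      obtain ⟨m', hm', hm'w⟩ := hw2 m
      rcases hm m' hm' with h | h
      · exact hmq (hq.1 _ _ hm' h)
      · exact hm'w h
    · intro hm m' hm'
      exact Or.inl (hq.1 _ _ hm'.symm hm)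
  have hbase : base c F f (act q w) = act q (eps F f w) := by
    unfold base
    rw [act_def, act_def]
    simp only
    congr 1
    apply SM.ext
    · change core c (q.2 * w).X = (q.2 * eps F f w).X
      rw [hcore, mul_X]
      simp [eps]
    · rw [mul_x]
      change hat F f (q.2.x * w.x) = q.2.x * (if w.x ∈ F then 1 else f)
      unfold hat
      rcases hw3 with h | h
      · rw [h, mul_one, if_pos hq.2, if_pos h1, mul_one]
      · have hne : w.x ≠ 1 := fun he => h (he ▸ h1)
        rw [mul_right _ hne, if_neg h, if_neg h, mul_right _ hf1]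
  refine ⟨hbase, ?_, ?_⟩
  · rw [act_def]
    change tag F (q.2.x * w.x) = tag F w.x
    unfold tag
    rcases hw3 with h | h
    · rw [h, mul_one, if_pos hq.2, if_pos h1]
    · have hne : w.x ≠ 1 := fun he => h (he ▸ h1)
      rw [mul_right _ hne]
  · unfold rem
    rw [hbase]
    change ((q.2 * w).X \ core c (q.2 * w).X) \ _ = _
    rw [hcore, hX]
    ext m
    constructor
    · rintro ⟨⟨hm | hm, hm2⟩, hm3⟩
      · exact absurd hm hm2
      · exact ⟨hm, hm3⟩
    · rintro ⟨hm, hm3⟩
      refine ⟨⟨Or.inr hm, ?_⟩, hm3⟩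
      intro hmq
      apply hm3
      have hsub : q.2.X \ {1} ⊆ XX c F P (act q (eps F f w)) := by
        apply subset_XX
        · rintro a b hab ⟨ha, ha1⟩
          refine ⟨hq.1 _ _ hab ha, ?_⟩
          rintro rfl
          exact ha1 (hF 1 h1 a hab)
        · exact fun h => h.2 rfl
        · intro a ha
          exact Or.inl ha.1
      exact hsub ⟨hmq, fun h => hw1 (h ▸ hm)⟩

include hF h1 hf hf1 in
theorem eps_S0 (w : SM M) : eps F f w ∈ S0 c F := by
  classical
  refine ⟨sat_empty c, ?_⟩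
  unfold eps
  simp only
  split_ifs
  · exact h1
  · exact hf

include hF h1 hf hf1 in
theorem lemmaB {q q' : Fin n × SM M} (hq : q.2 ∈ S0 c F) (hq' : q'.2 ∈ S0 c F)
    (h : G0 (S0 c F) P q q') {w : SM M} (hw : Adm c F w) :
    Psi c F f P (act q w) (act q' w) := by
  obtain ⟨a1, a2, a3⟩ := lemmaA c F f hF h1 hf hf1 P hq hw
  obtain ⟨b1, b2, b3⟩ := lemmaA c F f hF h1 hf hf1 P hq' hw
  have h4 : G0 (S0 c F) P (act q (eps F f w)) (act q' (eps F f w)) :=
    G0.mul _ _ _ (eps_S0 c F f hF h1 hf hf1 w) h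
  refine ⟨a2.trans b2.symm, ?_, ?_⟩
  · rw [a1, b1]; exact h4
  · rw [a3, b3, XX_congr c F h1 P h4]

theorem Psi.refl (p : Fin n × SM M) : Psi c F f P p p := ⟨rfl, G0.refl _, rfl⟩

theorem Psi.symm {p q : Fin n × SM M} (h : Psi c F f P p q) : Psi c F f P q p :=
  ⟨h.1.symm, G0.symm _ _ h.2.1, h.2.2.symm⟩

theorem Psi.trans {p q r : Fin n × SM M} (h : Psi c F f P p q) (h' : Psi c F f P q r) :
    Psi c F f P p r :=
  ⟨h.1.trans h'.1, G0.trans _ _ _ h.2.1 h'.2.1, h.2.2.trans h'.2.2⟩

include hF h1 hf hf1 in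
theorem lemmaC (hP : ∀ a b, (a, b) ∈ P → a.2 ∈ S0 c F ∧ b.2 ∈ S0 c F) {p q : Fin n × SM M}
    (h : Gen (SM M) P p q) : ∀ t : SM M, Psi c F f P (act p t) (act q t) := by
  induction h with
  | of a b hab =>
    intro t
    obtain ⟨s, hs, w, hw, rfl⟩ := decomp c F hF h1 t
    rw [← act_act, ← act_act]
    apply lemmaB c F f hF h1 hf hf1 P
    · exact mul_S0 c F hF h1 (hP a b hab).1 hs
    · exact mul_S0 c F hF h1 (hP a b hab).2 hs
    · exact G0.mul _ _ _ hs (G0.of _ _ hab)
    · exact hw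
  | refl a => intro t; exact Psi.refl c F f P _
  | symm a b _ ih => intro t; exact Psi.symm c F f P (ih t)
  | trans a b c' _ _ ih1 ih2 => intro t; exact Psi.trans c F f P (ih1 t) (ih2 t)
  | mul a b s _ ih =>
    intro t
    rw [act_act, act_act]
    exact ih _

/-- The finite set of pairs generating the kernel. -/
def K0 {k : ℕ} (b : Fin k → Fin n × SM M) : Set ((Fin k × SM M) × (Fin k × SM M)) :=
  {xy | xy.1.2 ∈ S0 c F ∧ xy.2.2 ∈ S0 c F ∧
    G0 (S0 c F) P (act (b xy.1.1) xy.1.2) (act (b xy.2.1) xy.2.2)}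

include hF h1 hf hf1 in
theorem lemmaD [Finite C] {k : ℕ} (b : Fin k → Fin n × SM M) (hb : ∀ j, (b j).2 ∈ S0 c F)
    (j l : Fin k) (t t' : SM M) (h : Psi c F f P (act (b j) t) (act (b l) t')) :
    Gen (SM M) (K0 c F P b) (j, t) (l, t') := by
  classical
  obtain ⟨s, hs, w, hw, rfl⟩ := decomp c F hF h1 t
  obtain ⟨s', hs', w', hw', rfl⟩ := decomp c F hF h1 t'
  rw [← act_act, ← act_act] at h
  obtain ⟨a1, a2, a3⟩ := lemmaA c F f hF h1 hf hf1 P (q := act (b j) s)
    (mul_S0 c F hF h1 (hb j) hs) hw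
  obtain ⟨b1, b2, b3⟩ := lemmaA c F f hF h1 hf hf1 P (q := act (b l) s')
    (mul_S0 c F hF h1 (hb l) hs') hw'
  obtain ⟨h2, h3, h4⟩ := h
  rw [a2, b2] at h2
  rw [a1, b1] at h3
  rw [a3, b3] at h4
  have hx : w.x = w'.x := by
    unfold tag at h2
    rcases hw.2.2 with e | e
    · rcases hw'.2.2 with e' | e'
      · rw [e, e']
      · rw [if_pos (e ▸ h1 : w.x ∈ F), if_neg e'] at h2
        exact absurd h2 (by simp)
    · by_cases e' : w'.x ∈ F
      · rw [if_neg e, if_pos e'] at h2
        exact absurd h2 (by simp)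
      · rw [if_neg e, if_neg e'] at h2
        exact Option.some.inj h2
  have heps : eps F f w' = eps F f w := by
    unfold eps
    rw [hx]
  rw [heps] at h3 h4
  have hepsw : ∀ v : SM M, Adm c F v → v.x = w.x → eps F f w * v = v := by
    intro v hv hvx
    apply SM.ext
    · rw [mul_X, image_mul _ hv.1]
      simp [eps]
    · rw [mul_x]
      unfold eps
      simp only
      split_ifs with h5
      · rw [one_mul]
      · rw [hvx]
        exact mul_right _ fun h6 => h5 (h6 ▸ h1)
  obtain ⟨X, hX⟩ : ∃ X, X = XX c F P (act (act (b j) s) (eps F f w)) := ⟨_, rfl⟩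
  have hX' : X = XX c F P (act (act (b l) s') (eps F f w)) := by
    rw [hX, XX_congr c F h1 P h3]
  rw [← hX, ← hX'] at h4
  obtain ⟨x1, x2, x3⟩ := XX_mem c F h1 P (act (act (b j) s) (eps F f w))
  rw [← hX] at x1 x2 x3
  have hXw : (⟨X, 1⟩ : SM M) * w = ⟨X, 1⟩ * w' := by
    apply SM.ext
    · rw [mul_X, mul_X, image_mul _ hw.1, image_mul _ hw'.1]
      change X ∪ w.X = X ∪ w'.X
      rw [← Set.union_sdiff_self (s := X) (t := w.X), h4, Set.union_sdiff_self]
    · rw [mul_x, mul_x, hx]
  have he := eps_S0 c F f hF h1 hf hf1 w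
  have hse := mul_S0 c F hF h1 hs he
  have hse' := mul_S0 c F hF h1 hs' he
  have hXS : (⟨X, 1⟩ : SM M) ∈ S0 c F := ⟨x1, h1⟩
  -- the first generator
  have g1 : Gen (SM M) (K0 c F P b) (j, s * eps F f w * ⟨X, 1⟩) (j, s * eps F f w) := by
    apply Gen.of
    refine ⟨mul_S0 c F hF h1 hse hXS, hse, ?_⟩
    change G0 (S0 c F) P (act (b j) (s * eps F f w * ⟨X, 1⟩)) (act (b j) (s * eps F f w))
    rw [act_act, act_act] at x3
    rw [act_act] at x3
    rw [← mul_assoc] at x3
    exact x3
  have g2 : Gen (SM M) (K0 c F P b) (j, s * eps F f w) (l, s' * eps F f w) := by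
    apply Gen.of
    refine ⟨hse, hse', ?_⟩
    change G0 (S0 c F) P (act (b j) (s * eps F f w)) (act (b l) (s' * eps F f w))
    rw [act_act, act_act] at h3
    exact h3
  have e1 : (j, s * w) = act ((j, s * eps F f w) : Fin k × SM M) w := by
    change (j, s * w) = (j, s * eps F f w * w)
    rw [mul_assoc, hepsw w hw rfl]
  have e2 : act ((j, s * eps F f w * ⟨X, 1⟩) : Fin k × SM M) w =
      act ((j, s * eps F f w * ⟨X, 1⟩) : Fin k × SM M) w' := by
    change (j, s * eps F f w * ⟨X, 1⟩ * w) = (j, s * eps F f w * ⟨X, 1⟩ * w')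
    rw [mul_assoc _ _ w, hXw, ← mul_assoc]
  have e3 : act ((l, s' * eps F f w) : Fin k × SM M) w' = (l, s' * w') := by
    change (l, s' * eps F f w * w') = (l, s' * w')
    rw [mul_assoc, hepsw w' hw' hx.symm]
  rw [e1, ← e3]
  refine Gen.trans _ _ _ (Gen.symm _ _ (Gen.mul _ _ w g1)) ?_
  rw [e2]
  exact Gen.trans _ _ _ (Gen.mul _ _ w' g1) (Gen.mul _ _ w' g2)

end right

theorem right_coherent : RightCoherent (SM M) := by
  classical
  intro A _ hA k b
  obtain ⟨n, φ, P, hsurj, hact, hfin, hker⟩ := hA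
  choose b' hb' using fun j => hsurj (b j)
  -- the finite data
  obtain ⟨K, hK⟩ : ∃ K : Set (SM M), K = ((fun pq : (Fin n × SM M) × (Fin n × SM M) => pq.1.2) '' P ∪
    (fun pq : (Fin n × SM M) × (Fin n × SM M) => pq.2.2) '' P) ∪ Set.range fun j => (b' j).2 :=
    ⟨_, rfl⟩
  have hKfin : K.Finite := hK ▸ ((hfin.image _).union (hfin.image _)).union (Set.finite_range _)
  obtain ⟨F, hFdef⟩ : ∃ F : Set M, F = {1, pt} ∪ SM.x '' K := ⟨_, rfl⟩
  have hFfin : F.Finite := hFdef ▸ ((Set.finite_singleton _).insert _).union (hKfin.image _)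
  obtain ⟨G, hG⟩ : ∃ G : Set (Set M), G = SM.X '' K ∪ (fun x => {x}) '' F := ⟨_, rfl⟩
  have hGfin : G.Finite := hG ▸ (hKfin.image _).union (hFfin.image _)
  haveI : Finite G := hGfin
  let c : M → Set G := fun m => {Y | m ∈ Y.1}
  have hc : ∀ Y ∈ G, Sat c Y := by
    intro Y hY m m' h hm
    have : (⟨Y, hY⟩ : G) ∈ c m := hm
    rw [h] at this
    exact this
  have hF : ∀ x ∈ F, ∀ m, c m = c x → m = x := by
    intro x hx m h
    have h1 : ({x} : Set M) ∈ G := hG ▸ Or.inr ⟨x, hx, rfl⟩
    exact hc _ h1 _ _ h.symm rfl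
  have h1 : (1 : M) ∈ F := hFdef ▸ Or.inl (Or.inl rfl)
  have hf : pt ∈ F := hFdef ▸ Or.inl (Or.inr rfl)
  have hf1 := pt_ne_one
  have hKS : ∀ p ∈ K, p ∈ S0 c F := by
    intro p hp
    exact ⟨hc _ (hG ▸ Or.inl ⟨p, hp, rfl⟩), hFdef ▸ Or.inr ⟨p, hp, rfl⟩⟩
  have hP : ∀ a b, (a, b) ∈ P → a.2 ∈ S0 c F ∧ b.2 ∈ S0 c F := by
    intro a b hab
    exact ⟨hKS _ (hK ▸ Or.inl (Or.inl ⟨_, hab, rfl⟩)), hKS _ (hK ▸ Or.inl (Or.inr ⟨_, hab, rfl⟩))⟩
  have hbS : ∀ j, (b' j).2 ∈ S0 c F := fun j => hKS _ (hK ▸ Or.inr ⟨j, rfl⟩)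
  have hφ : ∀ j (s : SM M), φ (act (b' j) s) = act (b j) s := by
    intro j s
    rw [hact, hb']
  refine ⟨k, fun p => ⟨act (b p.1) p.2, p.1, p.2, rfl⟩, K0 c F P b', ?_, ?_, ?_, ?_⟩
  · rintro ⟨x, i, s, rfl⟩
    exact ⟨(i, s), rfl⟩
  · intro p s
    apply Subtype.ext
    change act (b p.1) (p.2 * s) = act (act (b p.1) p.2) s
    exact (RightAct.ac_mul _ _ _).symm
  · have hS := finite_S0 c F hFfin
    have h2 : (Set.univ ×ˢ S0 c F : Set (Fin k × SM M)).Finite := Set.finite_univ.prod hS
    apply (h2.prod h2).subset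
    rintro ⟨x, y⟩ ⟨hx, hy, _⟩
    exact ⟨⟨Set.mem_univ _, hx⟩, ⟨Set.mem_univ _, hy⟩⟩
  · rintro ⟨j, t⟩ ⟨l, t'⟩
    constructor
    · intro h
      have h2 : act (b j) t = act (b l) t' := congrArg Subtype.val h
      rw [← hφ, ← hφ, hker] at h2
      have h3 := lemmaC c F _ hF h1 hf hf1 P hP h2 1
      have h4 : ∀ q : Fin n × SM M, act q (1 : SM M) = q := fun q => RightAct.ac_one q
      rw [h4, h4] at h3
      exact lemmaD c F _ hF h1 hf hf1 P b' hbS j l t t' h3
    · intro h
      have key : ∀ x y : Fin k × SM M, Gen (SM M) (K0 c F P b') x y →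
          act (b x.1) x.2 = act (b y.1) y.2 := by
        intro x y h
        induction h with
        | of x y hxy =>
          have := (hker _ _).2 (G0.gen hxy.2.2)
          rw [hφ, hφ] at this
          exact this
        | refl a => rfl
        | symm a b _ ih => exact ih.symm
        | trans a b c _ _ ih1 ih2 => exact ih1.trans ih2
        | mul x y s _ ih =>
          change act (b x.1) (x.2 * s) = act (b y.1) (y.2 * s)
          have e : ∀ (a : A) (u v : SM M), act a (u * v) = act (act a u) v := fun a u v =>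
            (RightAct.ac_mul _ _ _).symm
          rw [e, e, ih]
      exact Subtype.ext (key _ _ h)

/-- **Q1 has a positive answer.** There is a monoid `M` such that `𝒮(M)` is right coherent and not
left coherent. In particular `𝒮(M)` is non-coherent, and it is a subsemigroup of a right coherent
monoid `T`, for instance of `T = 𝒮(M)`. -/
theorem result :
    ∃ (M : Type) (_ : Monoid M),
      (RightCoherent (SM M) ∧ ¬ LeftCoherent (SM M)) ∧ ¬ Coherent (SM M) ∧
      ∃ (T : Type) (_ : Monoid T), (∃ e : SM M →ₙ* T, Function.Injective e) ∧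
        (LeftCoherent T ∨ RightCoherent T) :=
  ⟨M, inferInstance, ⟨right_coherent, not_left⟩, fun h => not_left h.1, SM M, inferInstance,
    ⟨MulHom.id _, Function.injective_id⟩, Or.inr right_coherent⟩

end Pool.Agent.Results.MP_811a2c_al.RightNotLeft
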